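import Mathlib
import Pool.Agent.U269.UnitPer

/-! # Many unit-perimeter triangles: `u(n) ≥ c n ^ (4/3)` -/

set_option autoImplicit false

namespace Pool.Agent.Results.MP_75315a_co.FourThirds

open Pool.Agent.U269.UnitPer Finset

/-- `T` is the vertex set of a nondegenerate triangle of perimeter one (the plane is `ℂ`). -/
def IsUnitTriangle (T : Finset ℂ) : Prop :=
  ∃ a b c : ℂ, (T : Set ℂ) = {a, b, c} ∧ ¬ Collinear ℝ ({a, b, c} : Set ℂ) ∧
    dist a b + dist b c + dist c a = 1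

open scoped Classical in
/-- The number of unordered triples of points of `P` which form a nondegenerate triangle of
perimeter one. -/
noncomputable def numUnit (P : Finset ℂ) : ℕ := ((P.powersetCard 3).filter IsUnitTriangle).card

/-- `u n`: the maximum number of unit-perimeter triangles spanned by `n` points in the plane. -/
noncomputable def u (n : ℕ) : ℕ := sSup {k : ℕ | ∃ P : Finset ℂ, P.card = n ∧ numUnit P = k}

lemma bdd (n : ℕ) : BddAbove {k : ℕ | ∃ P : Finset ℂ, P.card = n ∧ numUnit P = k} := by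
  classical
  refine ⟨n.choose 3, ?_⟩
  rintro k ⟨P, hP, rfl⟩
  calc numUnit P ≤ (P.powersetCard 3).card := card_filter_le _ _
    _ = n.choose 3 := by rw [card_powersetCard, hP]

lemma numUnit_mono {P Q : Finset ℂ} (h : P ⊆ Q) : numUnit P ≤ numUnit Q := by
  classical
  apply card_le_card
  intro T hT
  rw [mem_filter, mem_powersetCard] at hT ⊢
  exact ⟨⟨hT.1.1.trans h, hT.1.2⟩, hT.2⟩

/-- the two kinds of spinor coordinates -/
noncomputable def vv (k m : ℕ) : ℂ := ⟨1 / (2 * (k + 1)), (m + 1) / (2 * (k + 1))⟩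

noncomputable def ww (x y : ℕ) : ℂ := ⟨x + 1, y + 1⟩

lemma vv_re (k m : ℕ) : (vv k m).re = 1 / (2 * (k + 1)) := rfl
lemma vv_im (k m : ℕ) : (vv k m).im = (m + 1) / (2 * (k + 1)) := rfl
lemma ww_re (x y : ℕ) : (ww x y).re = x + 1 := rfl
lemma ww_im (x y : ℕ) : (ww x y).im = y + 1 := rfl

lemma vv_pos (k m : ℕ) : 0 < (vv k m).re := by rw [vv_re]; positivity
lemma ww_pos (x y : ℕ) : 0 < (ww x y).re := by rw [ww_re]; positivity

lemma vv_inj {k m k' m' : ℕ} (h : vv k m = vv k' m') : k = k' ∧ m = m' := by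
  have h1 := congrArg Complex.re h
  have h2 := congrArg Complex.im h
  rw [vv_re, vv_re] at h1
  rw [vv_im, vv_im] at h2
  have hk : (k : ℝ) = k' := by
    rw [div_eq_div_iff (by positivity) (by positivity)] at h1
    linarith
  rw [hk] at h2
  have hm : (m : ℝ) = m' := by
    have h3 : (2 * ((k' : ℝ) + 1)) ≠ 0 := by positivity
    rw [div_left_inj' h3] at h2
    linarith
  exact ⟨by exact_mod_cast hk, by exact_mod_cast hm⟩

lemma ww_inj {k m k' m' : ℕ} (h : ww k m = ww k' m') : k = k' ∧ m = m' := by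
  have h1 := congrArg Complex.re h
  have h2 := congrArg Complex.im h
  rw [ww_re, ww_re] at h1
  rw [ww_im, ww_im] at h2
  exact ⟨by exact_mod_cast (by linarith : (k : ℝ) = k'), by exact_mod_cast (by linarith : (m : ℝ) = m')⟩

lemma vv_ne_ww (k m x y : ℕ) : vv k m ≠ ww x y := by
  intro h
  have h1 := congrArg Complex.re h
  rw [vv_re, ww_re] at h1
  have h2 : (1 : ℝ) / (2 * (k + 1)) ≤ 1 / 2 := by
    apply one_div_le_one_div_of_le (by norm_num)
    have : (0 : ℝ) ≤ k := Nat.cast_nonneg k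
    linarith
  have h3 : (0 : ℝ) ≤ x := Nat.cast_nonneg x
  linarith

/-- the incidence: `y = m x + k` in shifted indices. -/
lemma det_eq (k m x : ℕ) :
    (vv k m).re * (ww x ((m + 1) * (x + 1) + k)).im - (vv k m).im * (ww x ((m + 1) * (x + 1) + k)).re
      = 1 / 2 := by
  rw [vv_re, vv_im, ww_re, ww_im]
  push_cast
  field_simp
  ring

lemma inner_pos (k m x y : ℕ) :
    0 < (vv k m).re * (ww x y).re + (vv k m).im * (ww x y).im := by
  rw [vv_re, vv_im, ww_re, ww_im]
  positivity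

/-- the configuration -/
noncomputable def conf (M : ℕ) : Finset ℂ := by
  classical
  exact insert 0 (((range (M ^ 2) ×ˢ range M).image fun q => p (vv q.1 q.2)) ∪
    ((range M ×ˢ range (2 * M ^ 2)).image fun q => p (ww q.1 q.2)))

lemma conf_card (M : ℕ) : (conf M).card ≤ 3 * M ^ 3 + 1 := by
  classical
  unfold conf
  refine (card_insert_le _ _).trans ?_
  refine Nat.succ_le_succ ((card_union_le _ _).trans ?_)
  have h1 := card_image_le (s := range (M ^ 2) ×ˢ range M) (f := fun q => p (vv q.1 q.2))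
  have h2 := card_image_le (s := range M ×ˢ range (2 * M ^ 2)) (f := fun q => p (ww q.1 q.2))
  rw [card_product, card_range, card_range] at h1 h2
  calc _ ≤ M ^ 2 * M + M * (2 * M ^ 2) := Nat.add_le_add h1 h2
    _ = 3 * M ^ 3 := by ring

lemma conf_tri (M : ℕ) : M ^ 4 ≤ numUnit (conf M) := by
  classical
  have hcard : (range (M ^ 2) ×ˢ (range M ×ˢ range M)).card = M ^ 4 := by
    rw [card_product, card_product, card_range, card_range]; ring
  rw [← hcard]
  unfold numUnit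
  apply card_le_card_of_injOn (fun q : ℕ × ℕ × ℕ =>
    ({0, p (vv q.1 q.2.1), p (ww q.2.2 ((q.2.1 + 1) * (q.2.2 + 1) + q.1))} : Finset ℂ))
  · rintro ⟨k, m, x⟩ hq
    simp only [coe_product, coe_range, Set.mem_prod, Set.mem_Iio] at hq
    obtain ⟨hk, hm, hx⟩ := hq
    simp only [coe_filter, mem_powersetCard, Set.mem_ofPred_eq]
    have hv0 := p_ne_zero (vv_pos k m)
    have hw0 := p_ne_zero (ww_pos x ((m + 1) * (x + 1) + k))
    have hvw : p (vv k m) ≠ p (ww x ((m + 1) * (x + 1) + k)) := fun h =>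
      vv_ne_ww _ _ _ _ (p_inj (vv_pos _ _) (ww_pos _ _) h)
    refine ⟨⟨?_, ?_⟩, ?_⟩
    · intro z hz
      simp only [mem_insert, mem_singleton] at hz
      unfold conf
      rcases hz with rfl | rfl | rfl
      · exact mem_insert_self _ _
      · apply mem_insert_of_mem
        apply mem_union_left
        exact mem_image.2 ⟨(k, m), mem_product.2 ⟨mem_range.2 hk, mem_range.2 hm⟩, rfl⟩
      · apply mem_insert_of_mem
        apply mem_union_right
        refine mem_image.2 ⟨(x, (m + 1) * (x + 1) + k), mem_product.2 ⟨mem_range.2 hx,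
          mem_range.2 ?_⟩, rfl⟩
        have h1 : (m + 1) * (x + 1) ≤ M * M := Nat.mul_le_mul hm hx
        show (m + 1) * (x + 1) + k < 2 * M ^ 2
        nlinarith
    · rw [card_eq_three]
      exact ⟨_, _, _, hv0.symm, hw0.symm, hvw, rfl⟩
    · refine ⟨0, p (vv k m), p (ww x ((m + 1) * (x + 1) + k)), by simp, ?_, ?_⟩
      · exact not_collinear (det_eq k m x) (inner_pos _ _ _ _)
      · have := key (det_eq k m x)
        rw [dist_zero_left, dist_zero_right, dist_eq_norm]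
        linarith
  · rintro ⟨k, m, x⟩ _ ⟨k', m', x'⟩ _ h
    simp only at h
    have hv0 := p_ne_zero (vv_pos k m)
    have hw0 := p_ne_zero (ww_pos x ((m + 1) * (x + 1) + k))
    have hv : p (vv k m) ∈ ({0, p (vv k' m'), p (ww x' ((m' + 1) * (x' + 1) + k'))} : Finset ℂ) := by
      rw [← h]; simp
    have hw : p (ww x ((m + 1) * (x + 1) + k)) ∈
        ({0, p (vv k' m'), p (ww x' ((m' + 1) * (x' + 1) + k'))} : Finset ℂ) := by
      rw [← h]; simp
    simp only [mem_insert, mem_singleton] at hv hw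
    rcases hv with hv | hv | hv
    · exact absurd hv hv0
    · rcases hw with hw | hw | hw
      · exact absurd hw hw0
      · exact absurd (p_inj (ww_pos _ _) (vv_pos _ _) hw).symm (vv_ne_ww _ _ _ _)
      · obtain ⟨rfl, rfl⟩ := vv_inj (p_inj (vv_pos _ _) (vv_pos _ _) hv)
        obtain ⟨rfl, _⟩ := ww_inj (p_inj (ww_pos _ _) (ww_pos _ _) hw)
        rfl
    · exact absurd (p_inj (vv_pos _ _) (ww_pos _ _) hv) (vv_ne_ww _ _ _ _)

/-- `u(n) ≥ n ^ (4/3) / 100` for every `n ≥ 4`. -/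
theorem result : ∀ n : ℕ, 4 ≤ n → (n : ℝ) ^ ((4 : ℝ) / 3) / 100 ≤ (u n : ℝ) := by
  classical
  intro n hn
  -- choose M
  obtain ⟨M, hM1, hM2, hM3⟩ : ∃ M : ℕ, 1 ≤ M ∧ 3 * M ^ 3 + 1 ≤ n ∧ n < 3 * (M + 1) ^ 3 + 1 := by
    set M := Nat.findGreatest (fun M => 3 * M ^ 3 + 1 ≤ n) n with hM
    have h1 : 1 ≤ M := Nat.le_findGreatest (by omega) (by omega)
    refine ⟨M, h1, ?_, ?_⟩
    · exact Nat.findGreatest_spec (P := fun M => 3 * M ^ 3 + 1 ≤ n) (m := 1) (by omega) (by omega)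
    · by_contra hcon
      push Not at hcon
      have h2 : M + 1 ≤ n := by
        have : M + 1 ≤ (M + 1) ^ 3 := Nat.le_self_pow (by norm_num) _
        omega
      have := Nat.le_findGreatest (P := fun M => 3 * M ^ 3 + 1 ≤ n) h2 hcon
      omega
  -- extend the configuration
  obtain ⟨P, hPsub, hPcard⟩ := Infinite.exists_superset_card_eq (conf M) n
    ((conf_card M).trans hM2)
  have h1 : M ^ 4 ≤ u n :=
    (conf_tri M).trans ((numUnit_mono hPsub).trans (le_csSup (bdd n) ⟨P, hPcard, rfl⟩))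
  have h2 : (M : ℝ) ^ 4 ≤ u n := by exact_mod_cast h1
  have h3 : (n : ℝ) ≤ 24 * (M : ℝ) ^ 3 := by
    have hM1' : (1 : ℝ) ≤ M := by exact_mod_cast hM1
    have h4 : (n : ℝ) ≤ 3 * ((M : ℝ) + 1) ^ 3 := by
      have : n ≤ 3 * (M + 1) ^ 3 := by omega
      exact_mod_cast this
    have h5 : ((M : ℝ) + 1) ^ 3 ≤ (2 * M) ^ 3 := pow_le_pow_left₀ (by positivity) (by linarith) 3
    calc (n : ℝ) ≤ 3 * ((M : ℝ) + 1) ^ 3 := h4
      _ ≤ 3 * (2 * M) ^ 3 := by linarith
      _ = 24 * (M : ℝ) ^ 3 := by ring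
  have h4 : (n : ℝ) ^ ((4 : ℝ) / 3) ≤ (24 * (M : ℝ) ^ 3) ^ ((4 : ℝ) / 3) :=
    Real.rpow_le_rpow (by positivity) h3 (by norm_num)
  have h5 : (24 * (M : ℝ) ^ 3) ^ ((4 : ℝ) / 3) ≤ 100 * (M : ℝ) ^ 4 := by
    rw [Real.mul_rpow (by norm_num) (by positivity)]
    have h6 : ((M : ℝ) ^ 3) ^ ((4 : ℝ) / 3) = (M : ℝ) ^ 4 := by
      rw [← Real.rpow_natCast, ← Real.rpow_mul (by positivity), ← Real.rpow_natCast]
      norm_num
    have h7 : (24 : ℝ) ^ ((4 : ℝ) / 3) ≤ 100 := by
      have h8 : (24 : ℝ) ^ ((4 : ℝ) / 3) ≤ ((27 : ℝ)) ^ ((4 : ℝ) / 3) :=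
        Real.rpow_le_rpow (by norm_num) (by norm_num) (by norm_num)
      have h9 : (27 : ℝ) ^ ((4 : ℝ) / 3) = 81 := by
        rw [show (27 : ℝ) = 3 ^ (3 : ℝ) by norm_num, ← Real.rpow_mul (by norm_num)]
        norm_num
      linarith
    rw [h6]
    gcongr
  rw [div_le_iff₀ (by norm_num)]
  linarith

end Pool.Agent.Results.MP_75315a_co.FourThirds
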